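import Mathlib

/-!
# MP_1b3940_lc: one well chosen negative datum suffices to learn all r.e. languages

We show that the class of all r.e. sets belongs to `NegO^1 TxtBc^*`, hence to `NegO^i TxtBc^*` for
every `i ≥ 1`.
-/

set_option autoImplicit false

namespace Pool.Agent.Results.MP_1b3940_lc.OneNegativeDatum

open Filter Encodable

/-- `φ` is an acceptable numbering of the partial computable functions `ℕ → ℕ`: the universal
function is partial computable, and every partial computable function `ψ(e, x)` of two variables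
translates into `φ` by a computable function of the index `e`. -/
structure AcceptableNumbering (φ : ℕ → ℕ →. ℕ) : Prop where
  universal : Partrec₂ φ
  smn : ∀ ψ : ℕ → ℕ →. ℕ, Partrec₂ ψ → ∃ f : ℕ → ℕ, Computable f ∧ ∀ e, φ (f e) = ψ e

/-- The `e`-th recursively enumerable set `W_e = dom(φ_e)`. -/
def W (φ : ℕ → ℕ →. ℕ) (e : ℕ) : Set ℕ := {x | (φ e x).Dom}

/-- `A =^a B`: the symmetric difference is finite and has at most `a` elements; the value
`a = ⊤` of `ℕ∞` stands for `*` (finite symmetric difference). -/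
def AlmostEq (a : ℕ∞) (A B : Set ℕ) : Prop :=
  (symmDiff A B).Finite ∧ (symmDiff A B).encard ≤ a

/-- The positive information of a map `I`; `none` stands for `#`, `some (x, true)` for `(x, 1)` and
`some (x, false)` for `(x, 0)`. -/
def PosInfo (I : ℕ → Option (ℕ × Bool)) : Set ℕ := {x | ∃ n, I n = some (x, true)}

/-- The negative information of a map `I`. -/
def NegInfo (I : ℕ → Option (ℕ × Bool)) : Set ℕ := {x | ∃ n, I n = some (x, false)}

/-- The initial segment `I[n]`. -/
def initSeg (I : ℕ → Option (ℕ × Bool)) (n : ℕ) : List (Option (ℕ × Bool)) :=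
  (List.range n).map I

/-- The learner `M` `NegO^b TxtBc^a`-identifies the language `L` (`⊤` stands for `*`). -/
def Identifies (φ : ℕ → ℕ →. ℕ) (b a : ℕ∞) (M : List (Option (ℕ × Bool)) → ℕ) (L : Set ℕ) :
    Prop :=
  ∃ S : Set ℕ, S ⊆ Lᶜ ∧ S.Finite ∧ S.encard ≤ b ∧
    ∀ I : ℕ → Option (ℕ × Bool), Disjoint (PosInfo I) (NegInfo I) →
      PosInfo I = L → S ⊆ NegInfo I → NegInfo I ⊆ Lᶜ →
      ∀ᶠ n in atTop, AlmostEq a (W φ (M (initSeg I n))) L

/-- The class `𝓛` of languages belongs to `NegO^b TxtBc^a`. -/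
def InNegOTxtBc (φ : ℕ → ℕ →. ℕ) (b a : ℕ∞) (𝓛 : Set (Set ℕ)) : Prop :=
  ∃ M : List (Option (ℕ × Bool)) → ℕ, Computable M ∧ ∀ L ∈ 𝓛, Identifies φ b a M L

/-! ### Finite approximations -/

open Nat.Partrec (Code)
open Nat.Partrec.Code

/-- data -/
abbrev D := Option (ℕ × Bool)

/-- `x` has been enumerated into `W_e` by stage `t` -/
def acc (c : Code) (e x t : ℕ) : Bool := (evaln t c (Nat.pair e x)).isSome

theorem primrec_acc (c : Code) : Primrec (fun q : ℕ × ℕ × ℕ => acc c q.1 q.2.1 q.2.2) := by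
  unfold acc
  refine Primrec.option_isSome.comp (primrec_evaln.comp (Primrec.pair (Primrec.pair
    (Primrec.snd.comp Primrec.snd) (Primrec.const c))
    (Primrec₂.natPair.comp Primrec.fst (Primrec.fst.comp Primrec.snd))))

theorem acc_mono (c : Code) {e x t t' : ℕ} (h : t ≤ t') (ha : acc c e x t = true) :
    acc c e x t' = true := by
  unfold acc at *
  obtain ⟨y, hy⟩ := Option.isSome_iff_exists.1 ha
  exact Option.isSome_iff_exists.2 ⟨y, evaln_mono h hy⟩

theorem acc_bound (c : Code) {e x t : ℕ} (ha : acc c e x t = true) : x < t := by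
  unfold acc at ha
  obtain ⟨y, hy⟩ := Option.isSome_iff_exists.1 ha
  exact lt_of_le_of_lt (Nat.right_le_pair e x) (evaln_bound hy)

section
variable {φ : ℕ → ℕ →. ℕ} {c : Code} (hc : ∀ e x, eval c (Nat.pair e x) = φ e x)
include hc

theorem mem_W_iff (e x : ℕ) : x ∈ W φ e ↔ ∃ t, acc c e x t = true := by
  unfold W acc
  rw [Set.mem_ofPred_eq, ← hc]
  constructor
  · intro h
    obtain ⟨k, hk⟩ := evaln_complete.1 (Part.get_mem h)
    exact ⟨k, Option.isSome_iff_exists.2 ⟨_, hk⟩⟩
  · rintro ⟨t, ht⟩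
    obtain ⟨y, hy⟩ := Option.isSome_iff_exists.1 ht
    exact Part.dom_iff_mem.2 ⟨y, evaln_sound hy⟩

theorem eventually_acc (e x : ℕ) : ∀ᶠ t in atTop, (acc c e x t = true ↔ x ∈ W φ e) := by
  by_cases h : x ∈ W φ e
  · obtain ⟨t, ht⟩ := (mem_W_iff hc e x).1 h
    filter_upwards [eventually_ge_atTop t] with t' ht'
    exact ⟨fun _ => h, fun _ => acc_mono c ht' ht⟩
  · refine Eventually.of_forall fun t => ⟨fun h' => (mem_W_iff hc e x).2 ⟨t, h'⟩, fun h' => ?_⟩
    exact absurd h' h

theorem eventually_acc_all (B : ℕ) :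
    ∀ᶠ t in atTop, ∀ e < B, ∀ x < B, (acc c e x t = true ↔ x ∈ W φ e) := by
  have h : ∀ᶠ t in atTop, ∀ p ∈ (Finset.range B ×ˢ Finset.range B),
      (acc c p.1 p.2 t = true ↔ p.2 ∈ W φ p.1) :=
    (Filter.eventually_all_finset _).2 fun p _ => eventually_acc hc p.1 p.2
  filter_upwards [h] with t ht e he x hx
  exact ht (e, x) (by simp [he, hx])

end

/-! ### The hypothesis of the learner -/

/-- the datum `d` agrees with `W_e` at stage `t` -/
def okd (c : Code) (d : D) (b : ℕ × ℕ) : Prop :=
  d.elim true (fun p => decide (acc c b.2 p.1 b.1 = p.2)) = true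

/-- the datum `d` is a positive datum outside `W_{e'}` at stage `t` -/
def sep (c : Code) (d : D) (b : ℕ × ℕ) : Prop :=
  d.elim false (fun p => p.2 && !acc c b.2 p.1 b.1) = true

/-- the condition of the learner for `e' < e` -/
def tell (c : Code) (e' : ℕ) (b : List D × ℕ × ℕ) : Prop :=
  (∃ x ∈ List.range (b.1.length + 1), (acc c b.2.2 x b.2.1 && !acc c e' x b.2.1) = true) →
    ∃ d ∈ b.1, sep c d (b.2.1, e')

/-- `e` is a good hypothesis at stage `t` for the data `σ`; here `b = (σ, t)` -/
def Good (c : Code) (e : ℕ) (b : List D × ℕ) : Prop :=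
  (∀ d ∈ b.1, okd c d (b.2, e)) ∧ ∀ e' ∈ List.range e, tell c e' (b.1, b.2, e)

theorem primrec_okd (c : Code) : PrimrecRel (okd c) := by
  unfold okd
  refine Primrec.eq.comp ?_ (Primrec.const true)
  have h : Primrec (fun q : D × ℕ × ℕ => (Option.casesOn q.1 true
      (fun p => decide (acc c q.2.2 p.1 q.2.1 = p.2)) : Bool)) := by
    refine Primrec.option_casesOn Primrec.fst (Primrec.const true) ?_
    have h1 : Primrec (fun r : (D × ℕ × ℕ) × (ℕ × Bool) => acc c r.1.2.2 r.2.1 r.1.2.1) :=
      (primrec_acc c).comp (Primrec.pair (Primrec.snd.comp (Primrec.snd.comp Primrec.fst))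
        (Primrec.pair (Primrec.fst.comp Primrec.snd)
          (Primrec.fst.comp (Primrec.snd.comp Primrec.fst))))
    exact (Primrec.eq.decide.comp h1 (Primrec.snd.comp Primrec.snd)).to₂
  refine h.of_eq ?_
  rintro ⟨d, b⟩
  cases d <;> rfl

theorem primrec_sep (c : Code) : PrimrecRel (sep c) := by
  unfold sep
  refine Primrec.eq.comp ?_ (Primrec.const true)
  have h : Primrec (fun q : D × ℕ × ℕ => (Option.casesOn q.1 false
      (fun p => p.2 && !acc c q.2.2 p.1 q.2.1) : Bool)) := by
    refine Primrec.option_casesOn Primrec.fst (Primrec.const false) ?_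
    have h1 : Primrec (fun r : (D × ℕ × ℕ) × (ℕ × Bool) => acc c r.1.2.2 r.2.1 r.1.2.1) :=
      (primrec_acc c).comp (Primrec.pair (Primrec.snd.comp (Primrec.snd.comp Primrec.fst))
        (Primrec.pair (Primrec.fst.comp Primrec.snd)
          (Primrec.fst.comp (Primrec.snd.comp Primrec.fst))))
    exact (Primrec.and.comp (Primrec.snd.comp Primrec.snd) (Primrec.not.comp h1)).to₂
  refine h.of_eq ?_
  rintro ⟨d, b⟩
  cases d <;> rfl

theorem primrec_tell (c : Code) : PrimrecRel (tell c) := by
  unfold tell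
  have h1 : PrimrecRel (fun (x : ℕ) (q : ℕ × List D × ℕ × ℕ) =>
      (acc c q.2.2.2 x q.2.2.1 && !acc c q.1 x q.2.2.1) = true) := by
    refine Primrec.eq.comp ?_ (Primrec.const true)
    have ha : Primrec (fun r : ℕ × ℕ × List D × ℕ × ℕ => acc c r.2.2.2.2 r.1 r.2.2.2.1) :=
      (primrec_acc c).comp (Primrec.pair
        (Primrec.snd.comp (Primrec.snd.comp (Primrec.snd.comp Primrec.snd)))
        (Primrec.pair Primrec.fst
          (Primrec.fst.comp (Primrec.snd.comp (Primrec.snd.comp Primrec.snd)))))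
    have hb : Primrec (fun r : ℕ × ℕ × List D × ℕ × ℕ => acc c r.2.1 r.1 r.2.2.2.1) :=
      (primrec_acc c).comp (Primrec.pair (Primrec.fst.comp Primrec.snd)
        (Primrec.pair Primrec.fst
          (Primrec.fst.comp (Primrec.snd.comp (Primrec.snd.comp Primrec.snd)))))
    exact Primrec.and.comp ha (Primrec.not.comp hb)
  have h2 := h1.exists_mem_list
  have h3 : PrimrecPred (fun q : ℕ × List D × ℕ × ℕ =>
      ∃ x ∈ List.range (q.2.1.length + 1),
        (acc c q.2.2.2 x q.2.2.1 && !acc c q.1 x q.2.2.1) = true) :=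
    h2.comp (Primrec.list_range.comp (Primrec.succ.comp (Primrec.list_length.comp
      (Primrec.fst.comp Primrec.snd)))) Primrec.id
  have h4 := (primrec_sep c).exists_mem_list
  have h5 : PrimrecPred (fun q : ℕ × List D × ℕ × ℕ => ∃ d ∈ q.2.1, sep c d (q.2.2.1, q.1)) :=
    h4.comp (Primrec.fst.comp Primrec.snd) (Primrec.pair
      (Primrec.fst.comp (Primrec.snd.comp Primrec.snd)) Primrec.fst)
  have h6 := (h3.not).or h5
  refine h6.of_eq ?_
  intro q
  exact (imp_iff_not_or).symm

theorem primrec_Good (c : Code) : PrimrecRel (Good c) := by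
  unfold Good
  have h1 := (primrec_okd c).forall_mem_list
  have h2 : PrimrecPred (fun q : ℕ × List D × ℕ => ∀ d ∈ q.2.1, okd c d (q.2.2, q.1)) :=
    h1.comp (Primrec.fst.comp Primrec.snd) (Primrec.pair (Primrec.snd.comp Primrec.snd) Primrec.fst)
  have h3 := (primrec_tell c).forall_mem_list
  have h4 : PrimrecPred (fun q : ℕ × List D × ℕ => ∀ e' ∈ List.range q.1,
      tell c e' (q.2.1, q.2.2, q.1)) :=
    h3.comp (Primrec.list_range.comp Primrec.fst) (Primrec.pair (Primrec.fst.comp Primrec.snd)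
      (Primrec.pair (Primrec.snd.comp Primrec.snd) Primrec.fst))
  exact h2.and h4

open Classical in
/-- The hypothesis at stage `t`: the least good `e ≤ |σ|` (and `|σ| + 1` if there is none). -/
noncomputable def hyp (c : Code) (σ : List D) (t : ℕ) : ℕ :=
  (List.range (σ.length + 1)).findIdx (fun e => decide (Good c e (σ, t)))

theorem primrec_hyp (c : Code) : Primrec (fun q : List D × ℕ => hyp c q.1 q.2) := by
  classical
  unfold hyp
  have h : Primrec₂ (fun (q : List D × ℕ) (e : ℕ) => decide (Good c e (q.1, q.2))) := by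
    have h0 := (primrec_Good c).decide
    exact (h0.comp Primrec.snd Primrec.fst).to₂
  exact Primrec.list_findIdx (Primrec.list_range.comp (Primrec.succ.comp
    (Primrec.list_length.comp Primrec.fst))) h

/-- the limit version of `Good` -/
def GoodLim (φ : ℕ → ℕ →. ℕ) (σ : List D) (e : ℕ) : Prop :=
  (∀ d ∈ σ, ∀ p ∈ d, (p.1 ∈ W φ e ↔ p.2 = true)) ∧
  ∀ e' < e, (∃ x < σ.length + 1, x ∈ W φ e ∧ x ∉ W φ e') →
    ∃ d ∈ σ, ∃ p ∈ d, p.2 = true ∧ p.1 ∉ W φ e'

section
variable {φ : ℕ → ℕ →. ℕ} {c : Code} (hc : ∀ e x, eval c (Nat.pair e x) = φ e x)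
include hc

theorem eventually_Good (σ : List D) :
    ∀ᶠ t in atTop, ∀ e < σ.length + 1, (Good c e (σ, t) ↔ GoodLim φ σ e) := by
  -- a bound for everything
  set B := σ.length + 1 + (σ.map (fun d => (d.elim 0 (fun p => p.1 + 1)))).sum with hB
  have hval : ∀ d ∈ σ, ∀ p ∈ d, p.1 < B := by
    intro d hd p hp
    have h1 : (d.elim 0 (fun p => p.1 + 1)) ≤ (σ.map (fun d => (d.elim 0 (fun p => p.1 + 1)))).sum :=
      List.single_le_sum (by simp) _ (List.mem_map.2 ⟨d, hd, rfl⟩)
    rw [Option.mem_def] at hp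
    rw [hp] at h1
    simp only [Option.elim_some] at h1
    omega
  filter_upwards [eventually_acc_all hc B] with t ht e he
  have heB : e < B := by omega
  unfold Good GoodLim
  simp only [List.mem_range]
  refine and_congr ?_ ?_
  · refine forall_congr' fun d => forall_congr' fun hd => ?_
    unfold okd
    cases d with
    | none => simp
    | some p =>
      have h1 := ht e heB p.1 (hval _ hd p rfl)
      simp only [Option.elim_some, decide_eq_true_eq, Option.mem_def, Option.some.injEq,
        forall_eq']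
      rw [← h1]
      cases p.2 <;> simp
  · refine forall_congr' fun e' => forall_congr' fun he' => ?_
    have he'B : e' < B := by omega
    unfold tell
    refine imp_congr ?_ ?_
    · simp only [List.mem_range]
      refine exists_congr fun x => and_congr_right fun hx => ?_
      have h1 := ht e heB x (by omega)
      have h2 := ht e' he'B x (by omega)
      rw [← h1, ← h2]
      simp
    · refine exists_congr fun d => and_congr_right fun hd => ?_
      unfold sep
      cases d with
      | none => simp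
      | some p =>
        have h1 := ht e' he'B p.1 (hval _ hd p rfl)
        simp only [Option.elim_some, Option.mem_def, Option.some.injEq, exists_eq_left']
        rw [← h1]
        simp

theorem eventually_hyp (σ : List D) : ∃ h : ℕ, (∀ᶠ t in atTop, hyp c σ t = h) ∧
    ∀ e0 < σ.length + 1, GoodLim φ σ e0 → (∀ e < e0, ¬ GoodLim φ σ e) → h = e0 := by
  classical
  obtain ⟨T, hT⟩ := eventually_atTop.1 (eventually_Good hc σ)
  have key : ∀ t, T ≤ t → hyp c σ t =
      (List.range (σ.length + 1)).findIdx (fun e => decide (GoodLim φ σ e)) := by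
    intro t ht
    unfold hyp
    have h : ∀ (l : List ℕ), (∀ x ∈ l, x < σ.length + 1) →
        l.findIdx (fun e => decide (Good c e (σ, t))) = l.findIdx (fun e => decide (GoodLim φ σ e)) := by
      intro l
      induction l with
      | nil => intro _; rfl
      | cons x l ih =>
        intro hl
        have e1 : decide (Good c x (σ, t)) = decide (GoodLim φ σ x) :=
          decide_eq_decide.2 (hT t ht x (hl x List.mem_cons_self))
        rw [List.findIdx_cons, List.findIdx_cons, e1, ih fun y hy => hl y (List.mem_cons_of_mem _ hy)]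
    exact h _ fun x hx => List.mem_range.1 hx
  refine ⟨_, eventually_atTop.2 ⟨T, key⟩, ?_⟩
  intro e0 he0 hg hn
  rw [List.findIdx_eq (by simpa using he0)]
  constructor
  · simpa using hg
  · intro j hj
    simpa using hn j hj

end

/-! ### The learner -/

/-- decoding of data -/
def dec (s : ℕ) : List D := (decode (α := List D) s).getD []

theorem exists_learner {φ : ℕ → ℕ →. ℕ} (hφ : AcceptableNumbering φ) {c : Code}
    (_hc : ∀ e x, eval c (Nat.pair e x) = φ e x) :
    ∃ M : List D → ℕ, Computable M ∧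
      ∀ σ, W φ (M σ) = {y | ∃ t, acc c (hyp c σ t) y t = true} := by
  have hp : Computable₂ (fun (q : ℕ × ℕ) (t : ℕ) => acc c (hyp c (dec q.1) t) q.2 t) := by
    have hd : Primrec (fun r : (ℕ × ℕ) × ℕ => dec r.1.1) := by
      unfold dec
      exact Primrec.option_getD.comp (Primrec.decode.comp (Primrec.fst.comp Primrec.fst))
        (Primrec.const [])
    have hh : Primrec (fun r : (ℕ × ℕ) × ℕ => hyp c (dec r.1.1) r.2) :=
      (primrec_hyp c).comp (Primrec.pair hd Primrec.snd)
    exact ((primrec_acc c).comp (Primrec.pair hh (Primrec.pair (Primrec.snd.comp Primrec.fst)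
      Primrec.snd))).to_comp
  have hψ : Partrec₂ (fun (s y : ℕ) => Nat.rfind fun t => Part.some (acc c (hyp c (dec s) t) y t)) :=
    Partrec.rfind hp.partrec₂
  obtain ⟨f, hf, hfψ⟩ := hφ.smn _ hψ
  refine ⟨fun σ => f (encode σ), hf.comp Computable.encode, fun σ => ?_⟩
  ext y
  unfold W
  have hdec : dec (encode σ) = σ := by simp [dec]
  rw [Set.mem_ofPred_eq, Set.mem_ofPred_eq, hfψ, hdec]
  constructor
  · intro h
    have h2 := Nat.rfind_dom.1 h
    obtain ⟨t, ht, _⟩ := h2
    exact ⟨t, (Part.mem_some_iff.1 ht).symm⟩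
  · rintro ⟨t, ht⟩
    exact Nat.rfind_dom.2 ⟨t, Part.mem_some_iff.2 ht.symm, fun _ => trivial⟩

theorem W_learner {φ : ℕ → ℕ →. ℕ} {c : Code} (hc : ∀ e x, eval c (Nat.pair e x) = φ e x)
    (σ : List D) (h : ℕ) (hh : ∀ᶠ t in atTop, hyp c σ t = h) :
    (symmDiff {y | ∃ t, acc c (hyp c σ t) y t = true} (W φ h)).Finite := by
  obtain ⟨T, hT⟩ := eventually_atTop.1 hh
  refine (Set.finite_Iio T).subset ?_
  rintro y (⟨⟨t, ht⟩, hy⟩ | ⟨hy, hn⟩)
  · by_contra hlt
    rw [Set.mem_Iio, not_lt] at hlt
    have h1 := acc_bound c ht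
    have h2 := hT t (by omega)
    rw [h2] at ht
    exact hy ((mem_W_iff hc h y).2 ⟨t, ht⟩)
  · exfalso
    obtain ⟨t, ht⟩ := (mem_W_iff hc h y).1 hy
    refine hn ⟨max t T, ?_⟩
    rw [hT _ (le_max_right _ _)]
    exact acc_mono c (le_max_left _ _) ht

/-! ### Convergence -/

theorem mem_initSeg {I : ℕ → D} {n : ℕ} {d : D} : d ∈ initSeg I n ↔ ∃ m < n, I m = d := by
  unfold initSeg
  simp

theorem eventually_pos {I : ℕ → D} {x : ℕ} (h : x ∈ PosInfo I) :
    ∀ᶠ n in atTop, some (x, true) ∈ initSeg I n := by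
  obtain ⟨m, hm⟩ := h
  filter_upwards [eventually_gt_atTop m] with n hn
  exact mem_initSeg.2 ⟨m, hn, hm⟩

theorem eventually_neg {I : ℕ → D} {x : ℕ} (h : x ∈ NegInfo I) :
    ∀ᶠ n in atTop, some (x, false) ∈ initSeg I n := by
  obtain ⟨m, hm⟩ := h
  filter_upwards [eventually_gt_atTop m] with n hn
  exact mem_initSeg.2 ⟨m, hn, hm⟩

theorem initSeg_length (I : ℕ → D) (n : ℕ) : (initSeg I n).length = n := by simp [initSeg]

/-- Sanity check: acceptable numberings exist. -/
theorem exists_acceptable : ∃ φ : ℕ → ℕ →. ℕ, AcceptableNumbering φ := by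
  refine ⟨fun e x => eval (Denumerable.ofNat Code e) x, ?_, ?_⟩
  · exact eval_part.comp ((Computable.ofNat Code).comp Computable.fst) Computable.snd
  · intro ψ hψ
    have h1 : Nat.Partrec (fun s => ψ s.unpair.1 s.unpair.2) := by
      have h2 : Partrec (fun s : ℕ => ψ s.unpair.1 s.unpair.2) :=
        hψ.comp (Computable.fst.comp Computable.unpair) (Computable.snd.comp Computable.unpair)
      exact Partrec.nat_iff.1 h2
    obtain ⟨c, hc⟩ := exists_code.1 h1
    refine ⟨fun e => encode (curry c e), ?_, ?_⟩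
    · exact Computable.encode.comp
        ((primrec₂_curry.comp (Primrec.const c) Primrec.id).to_comp)
    · intro e
      funext x
      simp [eval_curry, hc]

/-- **All r.e. languages can be learned from one well chosen negative datum.** Acceptable
numberings exist, and for each of them and every `i ≥ 1`, the class of all recursively enumerable
sets belongs to `NegO^i TxtBc^*`. -/
theorem result : (∃ φ : ℕ → ℕ →. ℕ, AcceptableNumbering φ) ∧
    ∀ φ : ℕ → ℕ →. ℕ, AcceptableNumbering φ → ∀ i : ℕ, 1 ≤ i →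
      InNegOTxtBc φ i ⊤ {L : Set ℕ | ∃ e, L = W φ e} := by
  classical
  refine ⟨exists_acceptable, ?_⟩
  intro φ hφ i hi
  -- a code for the universal function
  have hu : Nat.Partrec (fun s => φ s.unpair.1 s.unpair.2) := by
    have h1 : Partrec (fun s : ℕ => φ s.unpair.1 s.unpair.2) :=
      hφ.universal.comp (Computable.fst.comp Computable.unpair)
        (Computable.snd.comp Computable.unpair)
    exact Partrec.nat_iff.1 h1
  obtain ⟨c, hc0⟩ := exists_code.1 hu
  have hc : ∀ e x, eval c (Nat.pair e x) = φ e x := by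
    intro e x
    rw [hc0]
    simp
  obtain ⟨M, hM, hMW⟩ := exists_learner hφ hc
  refine ⟨M, hM, ?_⟩
  rintro L ⟨e1, he1⟩
  -- the least index
  have hex : ∃ e, L = W φ e := ⟨e1, he1⟩
  set e0 := Nat.find hex with he0
  have hL : L = W φ e0 := Nat.find_spec hex
  have hmin : ∀ e < e0, L ≠ W φ e := fun e he => Nat.find_min hex he
  -- the indices that have to be refuted
  set C := (Finset.range e0).filter (fun e => L ⊆ W φ e ∧
    ∀ e' < e, (∃ x, x ∈ W φ e ∧ x ∉ W φ e') → ∃ x ∈ L, x ∉ W φ e') with hC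
  have hS : ∃ S : Set ℕ, S ⊆ Lᶜ ∧ S.Finite ∧ S.encard ≤ 1 ∧ ∀ e ∈ C, ∃ s ∈ S, s ∈ W φ e := by
    rcases C.eq_empty_or_nonempty with hCe | hCn
    · exact ⟨∅, by simp, Set.finite_empty, by simp, by simp [hCe]⟩
    · set m := C.max' hCn with hm
      have hmC : m ∈ C := Finset.max'_mem _ _
      have hmC' := hmC
      rw [hC, Finset.mem_filter, Finset.mem_range] at hmC'
      obtain ⟨hm1, hm2, hm3⟩ := hmC'
      obtain ⟨s, hs1, hs2⟩ : ∃ s, s ∈ W φ m ∧ s ∉ L := by
        by_contra hcon
        push Not at hcon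
        exact hmin m hm1 (Set.Subset.antisymm hm2 hcon)
      refine ⟨{s}, by simpa using hs2, Set.finite_singleton s, by simp, ?_⟩
      intro e he
      refine ⟨s, rfl, ?_⟩
      rcases (Finset.le_max' C e he).eq_or_lt with h | h
      · rw [h]; exact hs1
      · by_contra hse
        obtain ⟨x, hx1, hx2⟩ := hm3 e h ⟨s, hs1, hse⟩
        rw [hC, Finset.mem_filter] at he
        exact hx2 (he.2.1 hx1)
  obtain ⟨S, hS1, hS2, hS3, hS4⟩ := hS
  refine ⟨S, hS1, hS2, hS3.trans (by exact_mod_cast hi), ?_⟩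
  intro I _ hpos hSneg hneg
  -- the true index is eventually good
  have hgood : ∀ᶠ n in atTop, GoodLim φ (initSeg I n) e0 := by
    have h1 : ∀ᶠ n in atTop, ∀ e' ∈ Finset.range e0, (∃ x, x ∈ W φ e0 ∧ x ∉ W φ e') →
        ∃ d ∈ initSeg I n, ∃ p ∈ d, p.2 = true ∧ p.1 ∉ W φ e' := by
      refine (Filter.eventually_all_finset _).2 fun e' _ => ?_
      by_cases h : ∃ x, x ∈ W φ e0 ∧ x ∉ W φ e'
      · obtain ⟨x, hx1, hx2⟩ := h
        rw [← hL, ← hpos] at hx1
        filter_upwards [eventually_pos hx1] with n hn _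
        exact ⟨_, hn, (x, true), rfl, rfl, hx2⟩
      · exact Eventually.of_forall fun n h' => absurd h' h
    filter_upwards [h1] with n hn
    refine ⟨?_, ?_⟩
    · intro d hd p hp
      obtain ⟨m, _, hm⟩ := mem_initSeg.1 hd
      rw [Option.mem_def] at hp
      rw [hp] at hm
      rw [← hL]
      obtain ⟨x, b⟩ := p
      cases b with
      | true =>
        have : x ∈ PosInfo I := ⟨m, hm⟩
        rw [hpos] at this
        simpa using this
      | false =>
        have : x ∈ NegInfo I := ⟨m, hm⟩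
        have := hneg this
        simpa using this
    · rintro e' he' ⟨x, _, hx⟩
      exact hn e' (Finset.mem_range.2 he') ⟨x, hx⟩
  -- smaller indices are eventually not good
  have hbad : ∀ᶠ n in atTop, ∀ e ∈ Finset.range e0, ¬ GoodLim φ (initSeg I n) e := by
    refine (Filter.eventually_all_finset _).2 fun e he => ?_
    rw [Finset.mem_range] at he
    by_cases hsub : L ⊆ W φ e
    · by_cases heC : e ∈ C
      · obtain ⟨s, hs1, hs2⟩ := hS4 e heC
        filter_upwards [eventually_neg (hSneg hs1)] with n hn hg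
        have := (hg.1 _ hn (s, false) rfl).1 hs2
        simp at this
      · have h1 : ¬ ∀ e' < e, (∃ x, x ∈ W φ e ∧ x ∉ W φ e') → ∃ x ∈ L, x ∉ W φ e' := by
          intro h
          exact heC (Finset.mem_filter.2 ⟨Finset.mem_range.2 he, hsub, h⟩)
        push Not at h1
        obtain ⟨e', he', ⟨x, hx1, hx2⟩, hx3⟩ := h1
        filter_upwards [eventually_gt_atTop x] with n hn hg
        obtain ⟨d, hd, p, hp, hp1, hp2⟩ := hg.2 e' he'
          ⟨x, by rw [initSeg_length]; omega, hx1, hx2⟩
        obtain ⟨m, _, hm⟩ := mem_initSeg.1 hd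
        rw [Option.mem_def] at hp
        rw [hp] at hm
        refine hp2 (hx3 p.1 ?_)
        rw [← hpos]
        refine ⟨m, ?_⟩
        rw [hm, ← hp1]
    · rw [Set.not_subset] at hsub
      obtain ⟨x, hx1, hx2⟩ := hsub
      rw [← hpos] at hx1
      filter_upwards [eventually_pos hx1] with n hn hg
      exact hx2 ((hg.1 _ hn (x, true) rfl).2 rfl)
  filter_upwards [hgood, hbad, eventually_gt_atTop e0] with n h1 h2 h3
  obtain ⟨h, hh1, hh2⟩ := eventually_hyp hc (initSeg I n)
  have hh : h = e0 := hh2 e0 (by rw [initSeg_length]; omega) h1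
    (fun e he => h2 e (Finset.mem_range.2 he))
  subst hh
  refine ⟨?_, le_top⟩
  rw [hMW, hL]
  exact W_learner hc _ _ hh1

end Pool.Agent.Results.MP_1b3940_lc.OneNegativeDatum
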